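import Mathlib

open scoped ComplexConjugate ComplexOrder
open Matrix Complex

namespace Pool.Agent.Results.MP_baa5e6_mp.UniformCertification

/-- Computational basis of `N` qubits (`false` is the `+1` eigenvector of `Z`). -/
abbrev Q (N : ℕ) := Fin N → Bool

/-- `σ_n = n_x X + n_y Y + n_z Z` as a `2 × 2` matrix. -/
noncomputable def sig (n : Fin 3 → ℝ) : Matrix Bool Bool ℂ :=
  Matrix.of fun a b => match a, b with
    | false, false => (n 2 : ℂ)
    | false, true => (n 0 : ℂ) - Complex.I * (n 1 : ℂ)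
    | true, false => (n 0 : ℂ) + Complex.I * (n 1 : ℂ)
    | true, true => -(n 2 : ℂ)

/-- `⊗_{i ∈ S} σ_n^{(i)}` (identity on the qubits outside `S`). -/
noncomputable def obs {N : ℕ} (n : Fin 3 → ℝ) (S : Finset (Fin N)) : Matrix (Q N) (Q N) ℂ :=
  Matrix.of fun x y => ∏ i, (if i ∈ S then sig n else (1 : Matrix Bool Bool ℂ)) (x i) (y i)

/-- The uniform measurement data `D_ρ(n, S) = Tr(ρ ⊗_{i ∈ S} σ_n^{(i)})`. -/
noncomputable def data {N : ℕ} (ρ : Matrix (Q N) (Q N) ℂ) (n : Fin 3 → ℝ)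
    (S : Finset (Fin N)) : ℂ :=
  (ρ * obs n S).trace

/-- Equality of the uniform data of two states, over all unit directions and all subsets. -/
def SameData {N : ℕ} (ρ ρ' : Matrix (Q N) (Q N) ℂ) : Prop :=
  ∀ n : Fin 3 → ℝ, n 0 ^ 2 + n 1 ^ 2 + n 2 ^ 2 = 1 → ∀ S : Finset (Fin N),
    data ρ n S = data ρ' n S

/-- Unit vectors of the `N`-qubit Hilbert space. -/
def UnitVec {N : ℕ} (ψ : Q N → ℂ) : Prop := ∑ x, ‖ψ x‖ ^ 2 = 1

/-- The projector `|ψ⟩⟨ψ|`. -/
def proj {N : ℕ} (ψ : Q N → ℂ) : Matrix (Q N) (Q N) ℂ := vecMulVec ψ (star ψ)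

/-- The pure states. -/
def pureStates (N : ℕ) : Set (Matrix (Q N) (Q N) ℂ) := {ρ | ∃ φ, UnitVec φ ∧ ρ = proj φ}

/-- All density matrices. -/
def densityMatrices (N : ℕ) : Set (Matrix (Q N) (Q N) ℂ) := {ρ | ρ.PosSemidef ∧ ρ.trace = 1}

/-- `ψ` is uniformly certifiable under the promise `C`. -/
def Certifiable {N : ℕ} (ψ : Q N → ℂ) (C : Set (Matrix (Q N) (Q N) ℂ)) : Prop :=
  ∀ ρ ∈ C, SameData ρ (proj ψ) → ρ = proj ψ

/-! ### Expansion of the data -/

lemma data_eq {N : ℕ} (ρ : Matrix (Q N) (Q N) ℂ) (n : Fin 3 → ℝ) (S : Finset (Fin N)) :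
    data ρ n S = ∑ x, ∑ y, ρ x y *
      ∏ i, (if i ∈ S then sig n (y i) (x i) else (1 : Matrix Bool Bool ℂ) (y i) (x i)) := by
  unfold data obs
  rw [Matrix.trace]
  refine Finset.sum_congr rfl fun x _ => ?_
  rw [Matrix.diag_apply, Matrix.mul_apply]
  refine Finset.sum_congr rfl fun y _ => ?_
  rw [Matrix.of_apply]
  congr 1
  refine Finset.prod_congr rfl fun i _ => ?_
  split_ifs <;> rfl

lemma data_sum {N : ℕ} (ρ : Matrix (Q N) (Q N) ℂ) (n : Fin 3 → ℝ) (c : Fin N → ℂ) :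
    ∑ S : Finset (Fin N), (∏ i ∈ S, c i) * data ρ n S = ∑ x, ∑ y, ρ x y *
      ∏ i, (c i * sig n (y i) (x i) + (1 : Matrix Bool Bool ℂ) (y i) (x i)) := by
  simp only [data_eq, Finset.mul_sum]
  rw [Finset.sum_comm]
  refine Finset.sum_congr rfl fun x _ => ?_
  rw [Finset.sum_comm]
  refine Finset.sum_congr rfl fun y _ => ?_
  rw [Fintype.prod_add, Finset.mul_sum]
  refine Finset.sum_congr rfl fun S _ => ?_
  rw [Finset.prod_mul_distrib]
  have h : ∏ i, (if i ∈ S then sig n (y i) (x i) else (1 : Matrix Bool Bool ℂ) (y i) (x i))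
      = (∏ i ∈ S, sig n (y i) (x i)) * ∏ i ∈ Sᶜ, (1 : Matrix Bool Bool ℂ) (y i) (x i) := by
    rw [← Finset.prod_mul_prod_compl S]
    congr 1
    · exact Finset.prod_congr rfl fun i hi => by rw [if_pos hi]
    · exact Finset.prod_congr rfl fun i hi => by
        rw [if_neg (Finset.mem_compl.1 hi)]
  rw [h]
  ring

/-- sign of a bit -/
def sg (b : Bool) : ℂ := if b then -1 else 1

/-- the `x`-basis character -/
def chi (z b : Bool) : ℂ := if b then sg z else 1

lemma zfac (z a b : Bool) : sg z * sig ![0, 0, 1] a b + (1 : Matrix Bool Bool ℂ) a b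
    = (if a = z then (if b = z then 2 else 0) else 0) := by
  cases z <;> cases a <;> cases b <;> simp [sg, sig] <;> norm_num

lemma xfac (z a b : Bool) : sg z * sig ![1, 0, 0] a b + (1 : Matrix Bool Bool ℂ) a b
    = chi z a * chi z b := by
  cases z <;> cases a <;> cases b <;> simp [sg, chi, sig]

lemma zdata {N : ℕ} (ρ : Matrix (Q N) (Q N) ℂ) (z : Q N) :
    ∑ S : Finset (Fin N), (∏ i ∈ S, sg (z i)) * data ρ ![0, 0, 1] S = 2 ^ N * ρ z z := by
  rw [data_sum]
  simp only [zfac]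
  rw [Finset.sum_eq_single z, Finset.sum_eq_single z]
  · simp
    ring
  · intro y _ hy
    obtain ⟨i, hi⟩ := Function.ne_iff.1 hy
    rw [Finset.prod_eq_zero (Finset.mem_univ i) (by rw [if_neg hi]), mul_zero]
  · intro h; exact absurd (Finset.mem_univ _) h
  · intro x _ hx
    refine Finset.sum_eq_zero fun y _ => ?_
    obtain ⟨i, hi⟩ := Function.ne_iff.1 hx
    rw [Finset.prod_eq_zero (Finset.mem_univ i) (by rw [if_neg hi]; split_ifs <;> rfl), mul_zero]
  · intro h; exact absurd (Finset.mem_univ _) h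

lemma chi_real (z b : Bool) : star (chi z b) = chi z b := by
  cases z <;> cases b <;> simp [chi, sg]

lemma xdata {N : ℕ} (φ : Q N → ℂ) (z : Q N) :
    ∑ S : Finset (Fin N), (∏ i ∈ S, sg (z i)) * data (proj φ) ![1, 0, 0] S
      = (∑ x, (∏ i, chi (z i) (x i)) * φ x) * star (∑ x, (∏ i, chi (z i) (x i)) * φ x) := by
  rw [data_sum]
  simp only [xfac]
  rw [star_sum, Finset.sum_mul_sum]
  refine Finset.sum_congr rfl fun x _ => Finset.sum_congr rfl fun y _ => ?_
  have h : star (∏ i, chi (z i) (y i)) = ∏ i, chi (z i) (y i) := by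
    rw [star_prod]; exact Finset.prod_congr rfl fun i _ => chi_real _ _
  rw [star_mul', h, Finset.prod_mul_distrib, proj, vecMulVec_apply, Pi.star_apply]
  ring

/-! ### The algebraic core -/

/-- dot product in the plane -/
def dt (a b : ℝ × ℝ) : ℝ := a.1 * b.1 + a.2 * b.2

lemma dt_comm (a b : ℝ × ℝ) : dt a b = dt b a := by unfold dt; ring

lemma det0 (a b c a' b' c' : ℝ × ℝ) :
    dt a a' * (dt b b' * dt c c' - dt b c' * dt c b')
      - dt a b' * (dt b a' * dt c c' - dt b c' * dt c a')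
      + dt a c' * (dt b a' * dt c b' - dt b b' * dt c a') = 0 := by
  unfold dt; ring

lemma core (z1 z2 z3 z4 z5 : ℝ × ℝ)
    (e0 : (-z1.1 + z2.1 + z3.1 - z4.1 - z5.1) ^ 2 + (-z1.2 + z2.2 + z3.2 - z4.2 - z5.2) ^ 2 = 9)
    (e1 : (z1.1 + z2.1 - z3.1 + z4.1 - z5.1) ^ 2 + (z1.2 + z2.2 - z3.2 + z4.2 - z5.2) ^ 2 = 25)
    (e2 : (z1.1 - z2.1 + z3.1 - z4.1 + z5.1) ^ 2 + (z1.2 - z2.2 + z3.2 - z4.2 + z5.2) ^ 2 = 49)
    (e3 : (-z1.1 - z2.1 - z3.1 + z4.1 + z5.1) ^ 2 + (-z1.2 - z2.2 - z3.2 + z4.2 + z5.2) ^ 2 = 81)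
    (e4 : (-z1.1 - z2.1 + z3.1 + z4.1 + z5.1) ^ 2 + (-z1.2 - z2.2 + z3.2 + z4.2 + z5.2) ^ 2 = 49)
    (e5 : (z1.1 - z2.1 - z3.1 + z4.1 - z5.1) ^ 2 + (z1.2 - z2.2 - z3.2 + z4.2 - z5.2) ^ 2 = 9)
    (e6 : (z1.1 + z2.1 - z3.1 - z4.1 + z5.1) ^ 2 + (z1.2 + z2.2 - z3.2 - z4.2 + z5.2) ^ 2 = 49)
    (e7 : (-z1.1 + z2.1 - z3.1 - z4.1 + z5.1) ^ 2 + (-z1.2 + z2.2 - z3.2 - z4.2 + z5.2) ^ 2 = 25)
    (e8 : (z1.1 - z2.1 + z3.1 - z4.1 - z5.1) ^ 2 + (z1.2 - z2.2 + z3.2 - z4.2 - z5.2) ^ 2 = 49)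
    (e9 : (-z1.1 + z2.1 + z3.1 + z4.1 - z5.1) ^ 2 + (-z1.2 + z2.2 + z3.2 + z4.2 - z5.2) ^ 2 = 25) :
    (dt z1 z1 = 36 ∧ dt z2 z2 = 1 ∧ dt z3 z3 = 1 ∧ dt z4 z4 = 1 ∧ dt z5 z5 = 0) ∧
    (dt z1 z2 = 6 ∧ dt z1 z3 = 6 ∧ dt z1 z4 = -6 ∧ dt z1 z5 = 0 ∧ dt z2 z3 = 1 ∧ dt z2 z4 = -1 ∧
      dt z2 z5 = 0 ∧ dt z3 z4 = -1 ∧ dt z3 z5 = 0 ∧ dt z4 z5 = 0) := by
  obtain ⟨τ, h15⟩ : ∃ τ, dt z1 z5 = τ := ⟨_, rfl⟩
  have h12 : dt z1 z2 = 6 + τ := by
    rw [← h15]; unfold dt
    linear_combination (-1 / 8 : ℝ) * e0 + (1 / 8 : ℝ) * e1 - (1 / 8 : ℝ) * e2 + (1 / 8 : ℝ) * e3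
  have h13 : dt z1 z3 = 6 + τ := by
    rw [← h15]; unfold dt
    linear_combination (-1 / 8 : ℝ) * e0 + (1 / 8 : ℝ) * e3 - (1 / 8 : ℝ) * e6 + (1 / 8 : ℝ) * e7
  have h14 : dt z1 z4 = -6 + τ := by
    rw [← h15]; unfold dt
    linear_combination (1 / 8 : ℝ) * e1 - (1 / 8 : ℝ) * e2 - (1 / 8 : ℝ) * e6 + (1 / 8 : ℝ) * e7
  have h23 : dt z2 z3 = 1 + τ := by
    rw [← h15]; unfold dt
    linear_combination (-1 / 8 : ℝ) * e0 - (1 / 8 : ℝ) * e2 + (1 / 8 : ℝ) * e3 + (1 / 8 : ℝ) * e5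
      - (1 / 8 : ℝ) * e6 + (1 / 8 : ℝ) * e9
  have h24 : dt z2 z4 = -1 + τ := by
    rw [← h15]; unfold dt
    linear_combination (-1 / 8 : ℝ) * e0 + (1 / 8 : ℝ) * e1 - (1 / 8 : ℝ) * e2
      - (1 / 8 : ℝ) * e6 + (1 / 8 : ℝ) * e8 + (1 / 8 : ℝ) * e9
  have h25 : dt z2 z5 = τ := by
    rw [← h15]; unfold dt
    linear_combination (-1 / 8 : ℝ) * e0 - (1 / 8 : ℝ) * e2 + (1 / 8 : ℝ) * e5
      + (1 / 8 : ℝ) * e8
  have h34 : dt z3 z4 = -1 + τ := by
    rw [← h15]; unfold dt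
    linear_combination (-1 / 8 : ℝ) * e0 - (1 / 8 : ℝ) * e2 + (1 / 8 : ℝ) * e4 - (1 / 8 : ℝ) * e6
      + (1 / 8 : ℝ) * e7 + (1 / 8 : ℝ) * e9
  have h35 : dt z3 z5 = τ := by
    rw [← h15]; unfold dt
    linear_combination (-1 / 8 : ℝ) * e0 + (1 / 8 : ℝ) * e4 + (1 / 8 : ℝ) * e5 - (1 / 8 : ℝ) * e6
  have h45 : dt z4 z5 = τ := by
    rw [← h15]; unfold dt
    linear_combination (-1 / 8 : ℝ) * e2 + (1 / 8 : ℝ) * e4 - (1 / 8 : ℝ) * e6 + (1 / 8 : ℝ) * e8
  have htr : dt z1 z1 + dt z2 z2 + dt z3 z3 + dt z4 z4 + dt z5 z5 = 39 + 4 * τ := by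
    rw [← h15]; unfold dt
    linear_combination (-1 / 4 : ℝ) * e0 + (1 / 4 : ℝ) * e1 - (1 / 4 : ℝ) * e2 + (1 / 4 : ℝ) * e3
      + (1 / 4 : ℝ) * e4 + (1 / 4 : ℝ) * e5 - (1 / 4 : ℝ) * e6 + (1 / 4 : ℝ) * e7
      + (1 / 4 : ℝ) * e8 + (1 / 4 : ℝ) * e9
  have h21 := (dt_comm z2 z1).trans h12
  have h31 := (dt_comm z3 z1).trans h13
  have h41 := (dt_comm z4 z1).trans h14
  have h51 := (dt_comm z5 z1).trans h15
  have h32 := (dt_comm z3 z2).trans h23
  have h42 := (dt_comm z4 z2).trans h24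
  have h52 := (dt_comm z5 z2).trans h25
  have h43 := (dt_comm z4 z3).trans h34
  have h53 := (dt_comm z5 z3).trans h35
  have h54 := (dt_comm z5 z4).trans h45
  -- minors
  have m1 := det0 z2 z4 z1 z1 z3 z5
  have m2 := det0 z1 z3 z2 z2 z4 z5
  have m3 := det0 z1 z2 z3 z3 z4 z5
  have m4 := det0 z1 z2 z4 z4 z3 z5
  have m5 := det0 z1 z2 z5 z5 z3 z4
  have n12 := det0 z1 z2 z3 z1 z2 z4
  have n13 := det0 z1 z3 z2 z1 z3 z4
  have n14 := det0 z1 z4 z2 z1 z4 z3
  have n23 := det0 z2 z3 z1 z2 z3 z4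
  have n24 := det0 z2 z4 z1 z2 z4 z3
  have n34 := det0 z3 z4 z1 z3 z4 z2
  have n15 := det0 z1 z5 z2 z1 z5 z3
  have n25 := det0 z2 z5 z1 z2 z5 z3
  have n35 := det0 z3 z5 z1 z3 z5 z2
  have n45 := det0 z4 z5 z1 z4 z5 z2
  simp only [h12, h13, h14, h15, h23, h24, h25, h34, h35, h45, h21, h31, h41, h51, h32, h42, h52,
    h43, h53, h54] at m1 m2 m3 m4 m5 n12 n13 n14 n23 n24 n34 n15 n25 n35 n45
  generalize dt z1 z1 = t1 at *
  generalize dt z2 z2 = t2 at *
  generalize dt z3 z3 = t3 at *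
  generalize dt z4 z4 = t4 at *
  generalize dt z5 z5 = t5 at *
  have k1 : τ * (t1 - 36 - τ) = 0 := by linear_combination (1 / 2 : ℝ) * m1
  have k2 : τ * (t2 - 1 - τ) = 0 := by linear_combination (-1 / 5 : ℝ) * m2
  have k3 : τ * (t3 - 1 - τ) = 0 := by linear_combination (-1 / 5 : ℝ) * m3
  have k4 : τ * (t4 - 1 - τ) = 0 := by linear_combination (1 / 5 : ℝ) * m4
  have k5 : τ * (t5 - τ) = 0 := by linear_combination (1 / 10 : ℝ) * m5
  have hτ : τ = 0 := by
    have h : τ * τ = 0 := by linear_combination τ * htr - k1 - k2 - k3 - k4 - k5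
    exact mul_self_eq_zero.1 h
  subst hτ
  have l12 : (t1 - 36) * (t2 - 1) = 0 := by linear_combination -n12
  have l13 : (t1 - 36) * (t3 - 1) = 0 := by linear_combination -n13
  have l14 : (t1 - 36) * (t4 - 1) = 0 := by linear_combination n14
  have l15 : (t1 - 36) * t5 = 0 := by linear_combination n15
  have l23 : (t2 - 1) * (t3 - 1) = 0 := by linear_combination (-1 / 6 : ℝ) * n23
  have l24 : (t2 - 1) * (t4 - 1) = 0 := by linear_combination (1 / 6 : ℝ) * n24
  have l25 : (t2 - 1) * t5 = 0 := by linear_combination (1 / 6 : ℝ) * n25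
  have l34 : (t3 - 1) * (t4 - 1) = 0 := by linear_combination (1 / 6 : ℝ) * n34
  have l35 : (t3 - 1) * t5 = 0 := by linear_combination (1 / 6 : ℝ) * n35
  have l45 : (t4 - 1) * t5 = 0 := by linear_combination (1 / 6 : ℝ) * n45
  have r1 : t1 = 36 := by
    have h : (t1 - 36) * (t1 - 36) = 0 := by
      linear_combination (t1 - 36) * htr - l12 - l13 - l14 - l15
    linarith [mul_self_eq_zero.1 h]
  have r2 : t2 = 1 := by
    have h : (t2 - 1) * (t2 - 1) = 0 := by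
      linear_combination (t2 - 1) * htr - l12 - l23 - l24 - l25
    linarith [mul_self_eq_zero.1 h]
  have r3 : t3 = 1 := by
    have h : (t3 - 1) * (t3 - 1) = 0 := by
      linear_combination (t3 - 1) * htr - l13 - l23 - l34 - l35
    linarith [mul_self_eq_zero.1 h]
  have r4 : t4 = 1 := by
    have h : (t4 - 1) * (t4 - 1) = 0 := by
      linear_combination (t4 - 1) * htr - l14 - l24 - l34 - l45
    linarith [mul_self_eq_zero.1 h]
  have r5 : t5 = 0 := by
    have h : t5 * t5 = 0 := by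
      linear_combination t5 * htr - l15 - l25 - l35 - l45
    exact mul_self_eq_zero.1 h
  refine ⟨⟨r1, r2, r3, r4, r5⟩, ?_⟩
  refine ⟨by linarith, by linarith, by linarith, h15, by linarith, by linarith, h25,
    by linarith, h35, h45⟩

/-- the sign vectors `p_1, …, p_5` on the ten edges -/
def Pm : Fin 10 → Fin 5 → ℤ :=
  ![![-1, 1, 1, -1, -1], ![1, 1, -1, 1, -1], ![1, -1, 1, -1, 1], ![-1, -1, -1, 1, 1],
    ![-1, -1, 1, 1, 1], ![1, -1, -1, 1, -1], ![1, 1, -1, -1, 1], ![-1, 1, -1, -1, 1],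
    ![1, -1, 1, -1, -1], ![-1, 1, 1, 1, -1]]

/-- the coefficients of the target -/
def xv : Fin 5 → ℤ := ![6, 1, 1, -1, 0]

/-- the amplitudes of the target -/
def cc : Fin 10 → ℤ := ![-3, 5, 7, -9, -7, 3, 7, -5, 7, -5]

lemma cc_eq (k : Fin 10) : cc k = ∑ a, Pm k a * xv a := by
  revert k; decide

lemma core2 (f : Fin 10 → ℂ) (hn : ∀ k, normSq (f k) = (cc k : ℝ) ^ 2)
    (v0 : f 0 + f 1 + f 2 + f 3 = 0) (v1 : f 0 + f 4 + f 5 + f 6 = 0)
    (v2 : f 1 + f 4 + f 7 + f 8 = 0) (v3 : f 2 + f 5 + f 7 + f 9 = 0)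
    (v4 : f 3 + f 6 + f 8 + f 9 = 0) (j k : Fin 10) :
    f j * conj (f k) = (cc j : ℂ) * (cc k : ℂ) := by
  -- the sixth sign vector is `(1, -1, -1, 1, -1, 1, -1, 1, 1, -1)`
  obtain ⟨s, hs⟩ : ∃ s : ℂ, s = f 0 - f 1 - f 2 + f 3 - f 4 + f 5 - f 6 + f 7 + f 8 - f 9 :=
    ⟨_, rfl⟩
  obtain ⟨z, hz⟩ : ∃ z : Fin 5 → ℂ, z = fun a => ((∑ k, (Pm k a : ℂ) * f k) - s) / 12 := ⟨_, rfl⟩
  have hf : ∀ k, f k = ∑ a, (Pm k a : ℂ) * z a := by
    intro k
    rw [hz]
    fin_cases k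
    · simp [Fin.sum_univ_succ, Pm, hs]
      linear_combination (1 / 4 : ℂ) * v0 + (1 / 4 : ℂ) * v1 + (-1 / 12 : ℂ) * v2 + (-1 / 12 : ℂ) * v3 + (-1 / 12 : ℂ) * v4
    · simp [Fin.sum_univ_succ, Pm, hs]
      linear_combination (1 / 4 : ℂ) * v0 + (-1 / 12 : ℂ) * v1 + (1 / 4 : ℂ) * v2 + (-1 / 12 : ℂ) * v3 + (-1 / 12 : ℂ) * v4
    · simp [Fin.sum_univ_succ, Pm, hs]
      linear_combination (1 / 4 : ℂ) * v0 + (-1 / 12 : ℂ) * v1 + (-1 / 12 : ℂ) * v2 + (1 / 4 : ℂ) * v3 + (-1 / 12 : ℂ) * v4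
    · simp [Fin.sum_univ_succ, Pm, hs]
      linear_combination (1 / 4 : ℂ) * v0 + (-1 / 12 : ℂ) * v1 + (-1 / 12 : ℂ) * v2 + (-1 / 12 : ℂ) * v3 + (1 / 4 : ℂ) * v4
    · simp [Fin.sum_univ_succ, Pm, hs]
      linear_combination (-1 / 12 : ℂ) * v0 + (1 / 4 : ℂ) * v1 + (1 / 4 : ℂ) * v2 + (-1 / 12 : ℂ) * v3 + (-1 / 12 : ℂ) * v4
    · simp [Fin.sum_univ_succ, Pm, hs]
      linear_combination (-1 / 12 : ℂ) * v0 + (1 / 4 : ℂ) * v1 + (-1 / 12 : ℂ) * v2 + (1 / 4 : ℂ) * v3 + (-1 / 12 : ℂ) * v4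
    · simp [Fin.sum_univ_succ, Pm, hs]
      linear_combination (-1 / 12 : ℂ) * v0 + (1 / 4 : ℂ) * v1 + (-1 / 12 : ℂ) * v2 + (-1 / 12 : ℂ) * v3 + (1 / 4 : ℂ) * v4
    · simp [Fin.sum_univ_succ, Pm, hs]
      linear_combination (-1 / 12 : ℂ) * v0 + (-1 / 12 : ℂ) * v1 + (1 / 4 : ℂ) * v2 + (1 / 4 : ℂ) * v3 + (-1 / 12 : ℂ) * v4
    · simp [Fin.sum_univ_succ, Pm, hs]
      linear_combination (-1 / 12 : ℂ) * v0 + (-1 / 12 : ℂ) * v1 + (1 / 4 : ℂ) * v2 + (-1 / 12 : ℂ) * v3 + (1 / 4 : ℂ) * v4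
    · simp [Fin.sum_univ_succ, Pm, hs]
      linear_combination (-1 / 12 : ℂ) * v0 + (-1 / 12 : ℂ) * v1 + (-1 / 12 : ℂ) * v2 + (1 / 4 : ℂ) * v3 + (1 / 4 : ℂ) * v4
  clear hz hs
  have hre : ∀ k, (f k).re = ∑ a, (Pm k a : ℝ) * (z a).re := by
    intro k
    rw [hf k, Complex.re_sum]
    refine Finset.sum_congr rfl fun a _ => ?_
    simp
  have him : ∀ k, (f k).im = ∑ a, (Pm k a : ℝ) * (z a).im := by
    intro k
    rw [hf k, Complex.im_sum]
    refine Finset.sum_congr rfl fun a _ => ?_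
    simp
  have hE : ∀ k, (∑ a, (Pm k a : ℝ) * (z a).re) ^ 2 + (∑ a, (Pm k a : ℝ) * (z a).im) ^ 2
      = (cc k : ℝ) ^ 2 := by
    intro k
    rw [← hre, ← him, ← hn k, normSq_apply]; ring
  obtain ⟨⟨g1, g2, g3, g4, g5⟩, g12, g13, g14, g15, g23, g24, g25, g34, g35, g45⟩ :=
    core ((z 0).re, (z 0).im) ((z 1).re, (z 1).im) ((z 2).re, (z 2).im) ((z 3).re, (z 3).im)
      ((z 4).re, (z 4).im)
      (by have := hE 0; simp [Fin.sum_univ_succ, Pm, cc] at this; linear_combination this)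
      (by have := hE 1; simp [Fin.sum_univ_succ, Pm, cc] at this; linear_combination this)
      (by have := hE 2; simp [Fin.sum_univ_succ, Pm, cc] at this; linear_combination this)
      (by have := hE 3; simp [Fin.sum_univ_succ, Pm, cc] at this; linear_combination this)
      (by have := hE 4; simp [Fin.sum_univ_succ, Pm, cc] at this; linear_combination this)
      (by have := hE 5; simp [Fin.sum_univ_succ, Pm, cc] at this; linear_combination this)
      (by have := hE 6; simp [Fin.sum_univ_succ, Pm, cc] at this; linear_combination this)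
      (by have := hE 7; simp [Fin.sum_univ_succ, Pm, cc] at this; linear_combination this)
      (by have := hE 8; simp [Fin.sum_univ_succ, Pm, cc] at this; linear_combination this)
      (by have := hE 9; simp [Fin.sum_univ_succ, Pm, cc] at this; linear_combination this)
  have hdot : ∀ a b, (z a).re * (z b).re + (z a).im * (z b).im = (xv a : ℝ) * (xv b : ℝ) := by
    simp only [dt] at *
    intro a b
    fin_cases a <;> fin_cases b <;> simp [xv] <;> linarith
  have hz : ∀ a b, z a * conj (z b) = (xv a : ℂ) * (xv b : ℂ) := by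
    intro a b
    have h1 : (z a * conj (z b)).re = (xv a : ℝ) * (xv b : ℝ) := by
      rw [← hdot a b]; simp
    have h2 : (z a * conj (z b)).im = 0 := by
      have h : (z a * conj (z b)).im ^ 2 = 0 := by
        have haa := hdot a a
        have hbb := hdot b b
        have hab := hdot a b
        have e : (z a * conj (z b)).im ^ 2 = ((z a).re * (z a).re + (z a).im * (z a).im)
          * ((z b).re * (z b).re + (z b).im * (z b).im)
          - ((z a).re * (z b).re + (z a).im * (z b).im) ^ 2 := by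
          simp; ring
        rw [e, haa, hbb, hab]; ring
      exact pow_eq_zero_iff (two_ne_zero) |>.1 h
    apply Complex.ext
    · rw [h1]; simp
    · rw [h2]; simp
  rw [hf j, hf k, map_sum, Finset.sum_mul_sum]
  have hcast : ∀ k, ((cc k : ℤ) : ℂ) = ∑ a, (Pm k a : ℂ) * (xv a : ℂ) := by
    intro k; rw [cc_eq]; push_cast; rfl
  rw [hcast, hcast, Finset.sum_mul_sum]
  refine Finset.sum_congr rfl fun a _ => Finset.sum_congr rfl fun b _ => ?_
  rw [map_mul]
  have h3 : conj ((Pm k b : ℤ) : ℂ) = ((Pm k b : ℤ) : ℂ) := by simp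
  rw [h3]
  linear_combination ((Pm j a : ℂ) * (Pm k b : ℂ)) * hz a b

/-! ### The sign vectors on the weight-two strings of five qubits -/

/-- `p`: on strings of weight two it is `1` if the two ones are neighbours on the pentagon and
`-1` otherwise; it vanishes on all other strings. -/
def pen (x : Q 5) : ℤ :=
  if (∑ i, if x i then (1 : ℕ) else 0) = 2 then
    (if (x 0 && x 1) || (x 1 && x 2) || (x 2 && x 3) || (x 3 && x 4) || (x 4 && x 0) then 1
      else -1)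
  else 0

/-- rotation of the pentagon -/
def rot : Equiv.Perm (Fin 5) :=
  ⟨fun i => i + 1, fun i => i + 4, by decide, by decide⟩

/-- multiplication by two, which exchanges pentagon and pentagram -/
def dbl : Equiv.Perm (Fin 5) :=
  ⟨fun i => 2 * i, fun i => 3 * i, by decide, by decide⟩

lemma pen_rot : ∀ x : Q 5, pen (x ∘ rot) = pen x := by decide +kernel

lemma pen_dbl : ∀ x : Q 5, pen (x ∘ dbl) = -pen x := by decide +kernel

/-- preimage of a set of qubits -/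
def pre {N : ℕ} (σ : Equiv.Perm (Fin N)) (S : Finset (Fin N)) : Finset (Fin N) :=
  Finset.univ.filter fun j => σ j ∈ S

lemma orbit1 : ∀ S : Finset (Fin 5), ∃ a : Fin 4, ∃ b : Fin 5,
    pre (Equiv.swap 0 1) S = (pre rot)^[b] ((pre dbl)^[a] S) := by decide +kernel

lemma orbit2 : ∀ S : Finset (Fin 5), ∃ a : Fin 4, ∃ b : Fin 5,
    pre (Equiv.swap 0 2) S = (pre rot)^[b] ((pre dbl)^[a] S) := by decide +kernel

lemma orbit3 : ∀ S : Finset (Fin 5), ∃ a : Fin 4, ∃ b : Fin 5,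
    pre (Equiv.swap 0 3) S = (pre rot)^[b] ((pre dbl)^[a] S) := by decide +kernel

/-- the operator `|v⟩⟨v|` of a real (integer) vector -/
def M {N : ℕ} (v : Q N → ℤ) : Matrix (Q N) (Q N) ℂ :=
  vecMulVec (fun x => (v x : ℂ)) (fun x => (v x : ℂ))

lemma M_neg {N : ℕ} (v : Q N → ℤ) : M (fun x => -v x) = M v := by
  ext x y; simp [M, vecMulVec_apply]

lemma data_add {N : ℕ} (A B : Matrix (Q N) (Q N) ℂ) (n : Fin 3 → ℝ) (S : Finset (Fin N)) :
    data (A + B) n S = data A n S + data B n S := by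
  simp [data, Matrix.add_mul, Matrix.trace_add]

lemma data_smul {N : ℕ} (c : ℂ) (A : Matrix (Q N) (Q N) ℂ) (n : Fin 3 → ℝ)
    (S : Finset (Fin N)) : data (c • A) n S = c * data A n S := by
  simp [data, Matrix.trace_smul]

lemma data_perm {N : ℕ} (σ : Equiv.Perm (Fin N)) (v : Q N → ℤ) (n : Fin 3 → ℝ)
    (S : Finset (Fin N)) :
    data (M fun x => v (x ∘ σ)) n S = data (M v) n (pre σ S) := by
  rw [data_eq, data_eq]
  let e : Q N ≃ Q N := ⟨fun x => x ∘ σ, fun x => x ∘ σ.symm,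
    fun x => by ext i; simp, fun x => by ext i; simp⟩
  refine Fintype.sum_equiv e _ _ fun x => Fintype.sum_equiv e _ _ fun y => ?_
  have h1 : (M fun x => v (x ∘ σ)) x y = M v (e x) (e y) := rfl
  rw [h1]
  congr 1
  rw [← Equiv.prod_comp σ]
  refine Finset.prod_congr rfl fun i _ => ?_
  have h2 : i ∈ pre σ S ↔ σ i ∈ S := by simp [pre]
  by_cases h : σ i ∈ S
  · rw [if_pos h, if_pos (h2.2 h)]; rfl
  · rw [if_neg h, if_neg (fun h' => h (h2.1 h'))]; rfl

lemma data_rot (n : Fin 3 → ℝ) (S : Finset (Fin 5)) :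
    data (M pen) n (pre rot S) = data (M pen) n S := by
  rw [← data_perm]
  congr 2
  exact funext pen_rot

lemma data_dbl (n : Fin 3 → ℝ) (S : Finset (Fin 5)) :
    data (M pen) n (pre dbl S) = data (M pen) n S := by
  rw [← data_perm]
  have h : (fun x : Q 5 => pen (x ∘ dbl)) = fun x => -pen x := funext pen_dbl
  rw [h, M_neg]

lemma data_iter (n : Fin 3 → ℝ) (S : Finset (Fin 5)) (a b : ℕ) :
    data (M pen) n ((pre rot)^[b] ((pre dbl)^[a] S)) = data (M pen) n S := by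
  have h1 : ∀ b S, data (M pen) n ((pre rot)^[b] S) = data (M pen) n S := by
    intro b
    induction b with
    | zero => intro S; rfl
    | succ b ih => intro S; rw [Function.iterate_succ_apply, ih, data_rot]
  have h2 : ∀ a S, data (M pen) n ((pre dbl)^[a] S) = data (M pen) n S := by
    intro a
    induction a with
    | zero => intro S; rfl
    | succ a ih => intro S; rw [Function.iterate_succ_apply, ih, data_dbl]
  rw [h1, h2]

/-- the vectors `p_1, …, p_4` -/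
def p2 (x : Q 5) : ℤ := pen (x ∘ Equiv.swap 0 1)
/-- see `p2` -/
def p3 (x : Q 5) : ℤ := pen (x ∘ Equiv.swap 0 2)
/-- see `p2` -/
def p4 (x : Q 5) : ℤ := pen (x ∘ Equiv.swap 0 3)

lemma data_p2 (n : Fin 3 → ℝ) (S : Finset (Fin 5)) : data (M p2) n S = data (M pen) n S := by
  obtain ⟨a, b, h⟩ := orbit1 S
  have h1 : M p2 = M fun x => pen (x ∘ Equiv.swap 0 1) := rfl
  rw [h1, data_perm, h, data_iter]

lemma data_p3 (n : Fin 3 → ℝ) (S : Finset (Fin 5)) : data (M p3) n S = data (M pen) n S := by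
  obtain ⟨a, b, h⟩ := orbit2 S
  have h1 : M p3 = M fun x => pen (x ∘ Equiv.swap 0 2) := rfl
  rw [h1, data_perm, h, data_iter]

lemma data_p4 (n : Fin 3 → ℝ) (S : Finset (Fin 5)) : data (M p4) n S = data (M pen) n S := by
  obtain ⟨a, b, h⟩ := orbit3 S
  have h1 : M p4 = M fun x => pen (x ∘ Equiv.swap 0 3) := rfl
  rw [h1, data_perm, h, data_iter]

/-- integer amplitudes of the target: `6 p_1 + p_2 + p_3 - p_4` with `p_1 = -p` -/
def amp (x : Q 5) : ℤ := -6 * pen x + p2 x + p3 x - p4 x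

/-- integer amplitudes of the first component of the mixed state -/
def al (x : Q 5) : ℤ := -3 * pen x + 2 * p2 x + 2 * p3 x - 2 * p4 x
/-- second component -/
def b1 (x : Q 5) : ℤ := p2 x - p3 x
/-- third component -/
def b2 (x : Q 5) : ℤ := p2 x + p4 x
/-- fourth component -/
def b3 (x : Q 5) : ℤ := p3 x + p4 x

/-- The target state. -/
noncomputable def tgt (x : Q 5) : ℂ := (amp x : ℂ) / ((Real.sqrt 370 : ℝ) : ℂ)

/-- The mixed partner. -/
noncomputable def mix : Matrix (Q 5) (Q 5) ℂ :=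
  (1 / 370 : ℂ) • (M al + (3 : ℂ) • (M b1 + M b2 + M b3))

lemma sqrt_sq : ((Real.sqrt 370 : ℝ) : ℂ) * ((Real.sqrt 370 : ℝ) : ℂ) = 370 := by
  rw [← Complex.ofReal_mul, Real.mul_self_sqrt (by norm_num)]; norm_num

lemma sqrt_ne : ((Real.sqrt 370 : ℝ) : ℂ) ≠ 0 := by
  rw [Complex.ofReal_ne_zero]; positivity

lemma proj_tgt : proj tgt = (1 / 370 : ℂ) • M amp := by
  ext x y
  have h : star (tgt y) = (amp y : ℂ) / ((Real.sqrt 370 : ℝ) : ℂ) := by
    simp [tgt]
  rw [proj, vecMulVec_apply, Pi.star_apply, h, tgt, Matrix.smul_apply, M, vecMulVec_apply,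
    smul_eq_mul, div_mul_div_comm, sqrt_sq]
  ring

lemma key_id : M amp + (9 : ℂ) • (M p2 + M p3 + M p4) =
    (M al + (3 : ℂ) • (M b1 + M b2 + M b3)) + (27 : ℂ) • M pen := by
  ext x y
  simp only [M, amp, al, b1, b2, b3, Matrix.add_apply, Matrix.smul_apply, vecMulVec_apply,
    smul_eq_mul]
  push_cast
  ring

lemma same_data : SameData mix (proj tgt) := by
  intro n _ S
  have h := congrArg (fun A => data A n S) key_id
  simp only [data_add, data_smul, data_p2, data_p3, data_p4] at h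
  rw [proj_tgt, mix]
  simp only [data_add, data_smul]
  linear_combination (-1 / 370 : ℂ) * h

lemma M_psd {N : ℕ} (v : Q N → ℤ) : (M v).PosSemidef := by
  have h := posSemidef_vecMulVec_self_star (fun x => (v x : ℂ))
  have h2 : star (fun x => (v x : ℂ)) = fun x => (v x : ℂ) := by
    ext x; simp
  rw [h2] at h
  exact h

lemma M_trace {N : ℕ} (v : Q N → ℤ) : (M v).trace = ((∑ x, v x * v x : ℤ) : ℂ) := by
  rw [Matrix.trace]
  push_cast
  rfl

lemma mix_trace_int : (∑ x, al x * al x) + 3 * ((∑ x, b1 x * b1 x) + (∑ x, b2 x * b2 x) +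
    (∑ x, b3 x * b3 x)) = 370 := by decide +kernel

lemma mix_density : mix ∈ densityMatrices 5 := by
  have h3 : (0 : ℂ) ≤ 3 := by
    rw [Complex.le_def]; norm_num
  have h370 : (0 : ℂ) ≤ 1 / 370 := by
    rw [Complex.le_def]; norm_num
  constructor
  · unfold mix
    exact ((M_psd al).add ((((M_psd b1).add (M_psd b2)).add (M_psd b3)).smul h3)).smul h370
  · unfold mix
    rw [Matrix.trace_smul, Matrix.trace_add, Matrix.trace_smul, Matrix.trace_add,
      Matrix.trace_add, M_trace, M_trace, M_trace, M_trace]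
    have h := congrArg (fun m : ℤ => (m : ℂ)) mix_trace_int
    simp only [smul_eq_mul]
    push_cast at h ⊢
    linear_combination (1 / 370 : ℂ) * h

lemma mix_ne : mix ≠ proj tgt := by
  intro h
  have h1 := congrFun (congrFun h ![true, true, false, false, false])
    ![true, false, true, false, false]
  rw [proj_tgt, mix] at h1
  simp only [M, Matrix.add_apply, Matrix.smul_apply, vecMulVec_apply, smul_eq_mul] at h1
  have e1 : amp ![true, true, false, false, false] = -3 := by decide +kernel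
  have e2 : amp ![true, false, true, false, false] = 5 := by decide +kernel
  have e3 : al ![true, true, false, false, false] = 3 := by decide +kernel
  have e4 : al ![true, false, true, false, false] = 1 := by decide +kernel
  have e5 : b1 ![true, true, false, false, false] = 0 := by decide +kernel
  have e6 : b2 ![true, true, false, false, false] = 0 := by decide +kernel
  have e7 : b3 ![true, true, false, false, false] = 0 := by decide +kernel
  rw [e1, e2, e3, e4, e5, e6, e7] at h1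
  norm_num at h1

/-- the ten strings of weight two -/
def ed : Fin 10 → Q 5 :=
  ![![true, true, false, false, false], ![true, false, true, false, false],
    ![true, false, false, true, false], ![true, false, false, false, true],
    ![false, true, true, false, false], ![false, true, false, true, false],
    ![false, true, false, false, true], ![false, false, true, true, false],
    ![false, false, true, false, true], ![false, false, false, true, true]]

lemma ed_inj : Function.Injective ed := by decide +kernel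

lemma amp_ed : ∀ k, amp (ed k) = cc k := by decide +kernel

lemma amp_supp : ∀ x, amp x = 0 ∨ ∃ k, x = ed k := by decide +kernel

lemma sum_supp (g : Q 5 → ℂ) (hg : ∀ x, amp x = 0 → g x = 0) :
    ∑ x, g x = ∑ k, g (ed k) := by
  have h1 : ∑ x ∈ Finset.univ.image ed, g x = ∑ k, g (ed k) :=
    Finset.sum_image fun a _ b _ h => ed_inj h
  rw [← h1]
  symm
  refine Finset.sum_subset (Finset.subset_univ _) fun x _ hx => hg x ?_
  rcases amp_supp x with h | ⟨k, rfl⟩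
  · exact h
  · exact absurd (Finset.mem_image_of_mem _ (Finset.mem_univ k)) hx

/-- amplitude of `φ` in the `x`-basis, up to a factor -/
noncomputable def A (φ : Q 5 → ℂ) (z : Q 5) : ℂ := ∑ x, (∏ i, chi (z i) (x i)) * φ x

/-- single-site string -/
def one (i : Fin 5) : Q 5 := fun j => decide (j = i)

lemma chi_zero (x : Q 5) : ∏ i, chi false (x i) = 1 := by
  simp [chi, sg]

lemma chi_one (i : Fin 5) (x : Q 5) : ∏ j, chi (one i j) (x j) = chi true (x i) := by
  rw [Finset.prod_eq_single i]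
  · simp [one]
  · intro j _ hj
    simp [one, hj, chi, sg]
  · intro h; exact absurd (Finset.mem_univ _) h

lemma A_zero (φ : Q 5 → ℂ) (hφ : ∀ x, amp x = 0 → φ x = 0) :
    A φ (fun _ => false) = ∑ k, φ (ed k) := by
  unfold A
  rw [sum_supp _ (fun x hx => by rw [hφ x hx, mul_zero])]
  exact Finset.sum_congr rfl fun k _ => by rw [chi_zero, one_mul]

lemma A_one (φ : Q 5 → ℂ) (hφ : ∀ x, amp x = 0 → φ x = 0) (i : Fin 5) :
    A φ (one i) = ∑ k, chi true (ed k i) * φ (ed k) := by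
  unfold A
  rw [sum_supp _ (fun x hx => by rw [hφ x hx, mul_zero])]
  exact Finset.sum_congr rfl fun k _ => by rw [chi_one]

lemma tgt_supp (x : Q 5) (hx : amp x = 0) : tgt x = 0 := by
  simp [tgt, hx]

lemma tgt_ed (k : Fin 10) : tgt (ed k) = (cc k : ℂ) / ((Real.sqrt 370 : ℝ) : ℂ) := by
  rw [tgt, amp_ed]

lemma A_tgt_zero : A tgt (fun _ => false) = 0 := by
  rw [A_zero tgt tgt_supp]
  simp only [tgt_ed]
  rw [← Finset.sum_div]
  simp [Fin.sum_univ_succ, cc]
  norm_num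

lemma A_tgt_one (i : Fin 5) : A tgt (one i) = 0 := by
  rw [A_one tgt tgt_supp]
  simp only [tgt_ed]
  fin_cases i <;> simp [Fin.sum_univ_succ, cc, ed, chi, sg] <;> ring

lemma tgt_unit : UnitVec tgt := by
  unfold UnitVec
  have h : ∀ x, ‖tgt x‖ ^ 2 = ((amp x * amp x : ℤ) : ℝ) / 370 := by
    intro x
    rw [tgt, norm_div, div_pow, Complex.norm_real, Real.norm_of_nonneg (Real.sqrt_nonneg _),
      Real.sq_sqrt (by norm_num), Complex.norm_intCast, sq_abs]
    push_cast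
    ring
  simp only [h]
  rw [← Finset.sum_div, ← Int.cast_sum]
  have h2 : ∑ x, amp x * amp x = 370 := by decide +kernel
  rw [h2]; norm_num

lemma tgt_pure_cert : Certifiable tgt (pureStates 5) := by
  rintro ρ ⟨φ, _, rfl⟩ hd
  have hz : ∀ z, φ z * star (φ z) = tgt z * star (tgt z) := by
    intro z
    have h1 := zdata (proj φ) z
    have h2 := zdata (proj tgt) z
    have h3 : ∀ S, data (proj φ) ![0, 0, 1] S = data (proj tgt) ![0, 0, 1] S := by
      intro S
      exact hd _ (by simp) S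
    simp only [h3] at h1
    have h4 : (2 : ℂ) ^ 5 * proj φ z z = 2 ^ 5 * proj tgt z z := by rw [← h1, ← h2]
    have h5 := mul_left_cancel₀ (by norm_num : (2 : ℂ) ^ 5 ≠ 0) h4
    simpa [proj, vecMulVec_apply] using h5
  have hA : ∀ z, A φ z * star (A φ z) = A tgt z * star (A tgt z) := by
    intro z
    have h1 := xdata φ z
    have h2 := xdata tgt z
    have h3 : ∀ S, data (proj φ) ![1, 0, 0] S = data (proj tgt) ![1, 0, 0] S := by
      intro S
      exact hd _ (by simp) S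
    simp only [h3] at h1
    unfold A
    rw [← h1, ← h2]
  have hA0 : ∀ z, A tgt z = 0 → A φ z = 0 := by
    intro z h
    have h1 := hA z
    rw [h, zero_mul, Complex.star_def, Complex.mul_conj] at h1
    exact normSq_eq_zero.1 (by exact_mod_cast h1)
  have hsupp : ∀ x, amp x = 0 → φ x = 0 := by
    intro x hx
    have h1 := hz x
    rw [tgt_supp x hx, zero_mul, Complex.star_def, Complex.mul_conj] at h1
    exact normSq_eq_zero.1 (by exact_mod_cast h1)
  have a0 := hA0 _ A_tgt_zero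
  rw [A_zero φ hsupp] at a0
  have a1 : ∀ i, ∑ k, chi true (ed k i) * φ (ed k) = 0 := by
    intro i
    rw [← A_one φ hsupp]
    exact hA0 _ (A_tgt_one i)
  have b0 := a1 0
  have b1' := a1 1
  have b2' := a1 2
  have b3' := a1 3
  have b4 := a1 4
  simp [Fin.sum_univ_succ, ed, chi, sg] at a0 b0 b1' b2' b3' b4
  have a0' : φ (ed 0) + (φ (ed 1) + (φ (ed 2) + (φ (ed 3) + (φ (ed 4) + (φ (ed 5) + (φ (ed 6) + (φ (ed 7) + (φ (ed 8) + φ (ed 9))))))))) = 0 := a0
  have c0 : -φ (ed 0) + (-φ (ed 1) + (-φ (ed 2) + (-φ (ed 3) + (φ (ed 4) + (φ (ed 5) + (φ (ed 6) + (φ (ed 7) + (φ (ed 8) + φ (ed 9))))))))) = 0 := b0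
  have c1 : -φ (ed 0) + (φ (ed 1) + (φ (ed 2) + (φ (ed 3) + (-φ (ed 4) + (-φ (ed 5) + (-φ (ed 6) + (φ (ed 7) + (φ (ed 8) + φ (ed 9))))))))) = 0 := b1'
  have c2 : φ (ed 0) + (-φ (ed 1) + (φ (ed 2) + (φ (ed 3) + (-φ (ed 4) + (φ (ed 5) + (φ (ed 6) + (-φ (ed 7) + (-φ (ed 8) + φ (ed 9))))))))) = 0 := b2'
  have c3 : φ (ed 0) + (φ (ed 1) + (-φ (ed 2) + (φ (ed 3) + (φ (ed 4) + (-φ (ed 5) + (φ (ed 6) + (-φ (ed 7) + (φ (ed 8) + -φ (ed 9))))))))) = 0 := b3'
  have c4 : φ (ed 0) + (φ (ed 1) + (φ (ed 2) + (-φ (ed 3) + (φ (ed 4) + (φ (ed 5) + (-φ (ed 6) + (φ (ed 7) + (-φ (ed 8) + -φ (ed 9))))))))) = 0 := b4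
  set r : ℂ := ((Real.sqrt 370 : ℝ) : ℂ) with hr
  have hrr : r * r = 370 := sqrt_sq
  have hrne : r ≠ 0 := sqrt_ne
  have hrc : conj r = r := by rw [hr, Complex.conj_ofReal]
  have hcore := core2 (fun k => r * φ (ed k)) ?_ ?_ ?_ ?_ ?_ ?_
  · have hk : ∀ j k, φ (ed j) * star (φ (ed k)) = tgt (ed j) * star (tgt (ed k)) := by
      intro j k
      have h1 := hcore j k
      simp only [map_mul, hrc] at h1
      have h2 : (370 : ℂ) * (φ (ed j) * conj (φ (ed k))) = (cc j : ℂ) * (cc k : ℂ) := by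
        rw [← h1, ← hrr]; ring
      rw [tgt_ed, tgt_ed, ← hr]
      simp only [Complex.star_def, map_div₀, hrc, map_intCast]
      rw [div_mul_div_comm, hrr, eq_div_iff (by norm_num), ← h2]; ring
    ext x y
    simp only [proj, vecMulVec_apply, Pi.star_apply]
    rcases amp_supp x with hx | ⟨j, rfl⟩
    · rw [hsupp x hx, tgt_supp x hx]; simp
    · rcases amp_supp y with hy | ⟨k, rfl⟩
      · rw [hsupp y hy, tgt_supp y hy]; simp
      · exact hk j k
  · intro k
    have h1 := hz (ed k)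
    rw [tgt_ed, ← hr] at h1
    simp only [Complex.star_def, map_div₀, hrc, map_intCast] at h1
    rw [div_mul_div_comm, hrr, Complex.mul_conj] at h1
    have h2 : ((normSq (r * φ (ed k)) : ℝ) : ℂ) = (((cc k : ℝ) ^ 2 : ℝ) : ℂ) := by
      rw [normSq_mul, Complex.ofReal_mul, h1, ← Complex.mul_conj, hrc, hrr]
      push_cast
      ring
    exact_mod_cast h2
  · linear_combination (r / 2) * (a0' - c0)
  · linear_combination (r / 2) * (a0' - c1)
  · linear_combination (r / 2) * (a0' - c2)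
  · linear_combination (r / 2) * (a0' - c3)
  · linear_combination (r / 2) * (a0' - c4)

/-- **Negative answer to Q1.** For `N = 5` there are a unit vector `ψ` and a density matrix
`ρ ≠ |ψ⟩⟨ψ|` with the same uniform data, although `ψ` is uniformly certifiable among the pure
states. In particular the implication of Q1 fails. -/
theorem result :
    (∃ ψ : Q 5 → ℂ, UnitVec ψ ∧ Certifiable ψ (pureStates 5) ∧
      ∃ ρ ∈ densityMatrices 5, SameData ρ (proj ψ) ∧ ρ ≠ proj ψ) ∧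
    ¬ ∀ N : ℕ, 1 ≤ N → ∀ ψ : Q N → ℂ, UnitVec ψ → Certifiable ψ (pureStates N) →
      Certifiable ψ (densityMatrices N) := by
  refine ⟨⟨tgt, tgt_unit, tgt_pure_cert, mix, mix_density, same_data, mix_ne⟩, ?_⟩
  intro h
  exact mix_ne (h 5 (by norm_num) tgt tgt_unit tgt_pure_cert mix mix_density same_data)

end Pool.Agent.Results.MP_baa5e6_mp.UniformCertification
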